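import Pool.Agent.Helper53.UW.Ask

/-!
# PROJECT UR3 (MP_c578c8_lc): languages of loops with questions, for a family of questions
-/

set_option autoImplicit false

namespace Pool.Agent.Helper12.UW

open Pool.Agent.Helper65.LinSpace Pool.Agent.Helper53.UW
open Pool.Agent.Helper53.UR
open Pool.Agent.Helper1.TE (USPACE)
open Pool.Agent.Helper53.CTG (ev Et)
open Pool.Agent.Helper31.OL (Lp OL)

/-- The answers. -/
theorem lt01_lt01 (x : ℕ) : lt01 0 (lt01 0 x) = lt01 0 x := by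
  unfold lt01
  split_ifs <;> simp_all

variable {κ : Type} [Ctx κ]

/-- The machine of a loop with questions. -/
def um (Q : QF κ) (L : Lp κ ℕ ℕ) (flip : ℕ) : UM L.B where
  I := L.I
  d o b := L.d (o, b)
  h := L.h
  out o := ifz flip (L.o o) (ifz (L.o o) 1 0)
  N o := Q.N (L.q o)
  q o := Q.q (L.q o)
  b o := Q.b (L.q o)
  c o := Q.c (L.q o)
  W o := Q.W (L.q o)
  t o := Q.t (L.q o)
  ts o := Q.s (L.q o)

theorem um_ok (Q : QF κ) (hQ : Q.Ok) (L : Lp κ ℕ ℕ) (flip : ℕ) : (um Q L flip).Ok where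
  hq o := hQ.hq (L.q o)
  hN o := hQ.hN (L.q o)
  hb o := hQ.hb (L.q o)
  hc o := hQ.hc (L.q o)
  hW o := hQ.hW (L.q o)
  ht o m v x y z := hQ.ht (L.q o) m v x y z

theorem um_bit (Q : QF κ) (L : Lp κ ℕ ℕ) (flip : ℕ) (o : L.B) :
    (um Q L flip).bit o = Pool.Agent.Helper31.OL.bit Q.ans (L.q o) :=
  (lt01_lt01 _).symm

theorem um_orun (Q : QF κ) (L : Lp κ ℕ ℕ) (flip : ℕ) (x i : ℕ) :
    (um Q L flip).orun x i = L.st Q.ans x i := by
  induction i with
  | zero => rfl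
  | succ i ih =>
    have h1 : (um Q L flip).orun x (i + 1) =
        L.d ((um Q L flip).orun x i, (um Q L flip).bit ((um Q L flip).orun x i)) := rfl
    rw [h1, um_bit, ih]
    unfold Pool.Agent.Helper31.OL.Lp.st
    rw [Function.iterate_succ_apply']
    rfl

theorem ls_tab {β : Type} [Ctx β] (T : κ → ℕ → ℕ → ℕ → ℕ → ℕ → ℕ)
    (hT : LS (fun x : κ × ℕ × ℕ × ℕ × ℕ × ℕ =>
      T x.1 x.2.1 x.2.2.1 x.2.2.2.1 x.2.2.2.2.1 x.2.2.2.2.2)) (g : β → κ) (hg : LS g) :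
    LS (fun x : β × ℕ × ℕ × ℕ × ℕ × ℕ =>
      T (g x.1) x.2.1 x.2.2.1 x.2.2.2.1 x.2.2.2.2.1 x.2.2.2.2.2) :=
  LS.comp (f := fun x : β × ℕ × ℕ × ℕ × ℕ × ℕ => (g x.1, x.2)) hT
    (LS.prodMk (LS.comp hg LS.fst) LS.snd)

theorem ls_one {β : Type} [Ctx β] (T : κ → ℕ → ℕ) (hT : LS (fun x : κ × ℕ => T x.1 x.2))
    (g : β → κ) (hg : LS g) : LS (fun x : β × ℕ => T (g x.1) x.2) :=
  LS.comp (f := fun x : β × ℕ => (g x.1, x.2)) hT (LS.prodMk (LS.comp hg LS.fst) LS.snd)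

theorem um_ls (Q : QF κ) (hQ : Q.Ok) (L : Lp κ ℕ ℕ) (flip : ℕ) : (um Q L flip).Ls := by
  have hz : LS (fun o : L.B => L.q o) := L.lq
  have hN' : LS (fun o : L.B => Q.N (L.q o)) := LS.comp hQ.lN hz
  have hq' : LS (fun o : L.B => Q.q (L.q o)) := LS.comp hQ.lq hz
  have hb' : LS (fun o : L.B => Q.b (L.q o)) := LS.comp hQ.lb hz
  have hc' : LS (fun o : L.B => Q.c (L.q o)) := LS.comp hQ.lc hz
  have hW' : LS (fun o : L.B => Q.W (L.q o)) := LS.comp hQ.lW hz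
  have ho' : LS (fun o : L.B => ifz flip (L.o o) (ifz (L.o o) 1 0)) :=
    LS.ifz (LS.const flip) L.lo (LS.ifz L.lo (LS.const 1) (LS.const 0))
  exact {
    I := L.lI
    d := L.ld
    h := L.lh
    out := ho'
    N := hN'
    q := hq'
    b := hb'
    c := hc'
    W := hW'
    t := ls_tab Q.t hQ.lt (fun o => L.q o) hz
    ts := ls_one Q.s hQ.ls (fun o => L.q o) hz }

/-- The language of the machine. -/
theorem um_lang (Q : QF κ) (L : Lp κ ℕ ℕ) (flip : ℕ) (F : ℕ → ℕ)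
    (hF : L.Comp Q.ans F) :
    (um Q L flip).Lang = {w | ifz flip (F (num w)) (ifz (F (num w)) 1 0) ≠ 0} := by
  ext w
  obtain ⟨t, ht, ht', ho, -⟩ := hF (num w)
  have h1 : ∀ i, (um Q L flip).h ((um Q L flip).orun (num w) i) =
      L.h (L.st Q.ans (num w) i) := fun i => by rw [um_orun]; rfl
  have h2 : (um Q L flip).out ((um Q L flip).orun (num w) t) =
      ifz flip (F (num w)) (ifz (F (num w)) 1 0) := by
    rw [um_orun, ← ho]
    rfl
  constructor
  · rintro ⟨T, hT, hT', hT''⟩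
    have h3 : T = t := by
      rcases Nat.lt_trichotomy T t with h | h | h
      · exact absurd ((h1 T).trans (ht' T h)) hT'
      · exact h
      · exact absurd ((h1 t).symm.trans (hT t h)) ht
    subst h3
    rw [h2] at hT''
    exact hT''
  · intro h
    refine ⟨t, fun i hi => (h1 i).trans (ht' i hi), ?_, ?_⟩
    · rw [h1 t]
      exact ht
    · rw [h2]
      exact h

theorem um_mem (hG : GenOK) (Q : QF κ) (hQ : Q.Ok) (L : Lp κ ℕ ℕ)
    (flip : ℕ) (F : ℕ → ℕ) (hF : L.Comp Q.ans F) :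
    {w | ifz flip (F (num w)) (ifz (F (num w)) 1 0) ≠ 0} ∈ USPACE (fun n => (n : ℝ)) := by
  rw [← um_lang Q L flip F hF]
  refine hG (um Q L flip) (um_ok Q hQ L flip) (um_ls Q hQ L flip) L.C L.lC ?_
  intro x j hj i
  obtain ⟨t, ht, ht', -, hb⟩ := hF x
  rw [um_orun]
  refine hb j ?_ i
  by_contra hjt
  have h1 := hj t (by omega)
  rw [um_orun] at h1
  exact ht h1

/-- **OLG.** -/
theorem gOLG : GoalOLG := by
  intro hG κ _ Q hQ F hF
  obtain ⟨L, hLF⟩ := hF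
  constructor
  · have h := um_mem hG Q hQ L 0 F hLF
    exact h
  · have h := um_mem hG Q hQ L 1 F hLF
    have h1 : {w : List Bool | ifz 1 (F (num w)) (ifz (F (num w)) 1 0) ≠ 0} =
        {w | F (num w) ≠ 0}ᶜ := by
      ext w
      simp only [Set.mem_ofPred_eq, Set.mem_compl_iff, ifz]
      by_cases h2 : F (num w) = 0 <;> simp [h2]
    rw [h1] at h
    exact h

end Pool.Agent.Helper12.UW
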