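import Mathlib
import Pool.Agent.Helper18.UW.GoalsR

/-!
# Packet UC of project UW (MP_d3128a_ag)
-/

set_option autoImplicit false

namespace Pool.Agent.Helper12.UW

open Finset
open Pool.Agent.Lead.Sh
open Pool.Agent.Helper43.Hw (T na va lz Play aa ac sc oo sk U Dd Sd Pn nx bb np)
open Pool.Agent.Helper43.Gm (Pri st mv nn)
open Pool.Agent.Helper18.EW
open Pool.Agent.Helper18.UW

theorem uc_va_congr (μ R : ℕ) (κ κ' x x' : ℕ → ℕ) (c z : ℕ)
    (h : ∀ y ≤ z, κ' y = κ y ∧ x' y = x y) : va μ R κ' x' c z = va μ R κ x c z := by
  have h1 : st κ' c z = st κ c z := by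
    unfold st
    congr 1
    apply Finset.filter_congr
    intro y hy
    rw [(h y (Finset.mem_range.1 hy).le).1]
  have h2 : mv κ' x' (fun _ => μ) c z = mv κ x (fun _ => μ) c z := by
    unfold mv
    apply Finset.filter_congr
    intro y hy
    rw [(h y (Finset.mem_range.1 hy).le).1, (h y (Finset.mem_range.1 hy).le).2]
  unfold va nn
  rw [h1, h2, (h z le_rfl).1, (h z le_rfl).2]

theorem goalUC : GoalUC := by
  intro m R N Y κ x hm hY hP
  obtain ⟨k, hk⟩ : ∃ k, k = if 0 < x Y then κ Y + 1 else κ Y := ⟨_, rfl⟩
  have hkY : κ Y ≤ k := by rw [hk]; split_ifs <;> omega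
  have hkN : k ≤ N := by
    have h1 := hP.le Y le_rfl
    rw [hk]
    split_ifs with h
    · by_contra h2
      have h3 : κ Y = N := by omega
      have := hP.fin Y le_rfl h3
      omega
    · exact h1
  refine ⟨fun y => if y ≤ Y then κ y else k,
    fun y => if y ≤ Y then x y else if k < N then na (m k) R y else 0, ?_, ?_, ?_⟩
  · constructor
    · intro y hy
      by_cases h1 : y + 1 ≤ Y
      · rw [if_pos h1, if_pos (by omega)]
        exact hP.mono y (by omega)
      · rw [if_neg h1]
        by_cases h2 : y ≤ Y
        · have : y = Y := by omega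
          rw [if_pos h2, this]; exact hkY
        · rw [if_neg h2]
    · intro y hy
      split_ifs with h
      · exact hP.le y h
      · exact hkN
    · intro y hy
      split_ifs with h1 h2
      · exact hP.lt y h1
      · intro _
        have := hm k h2
        unfold na
        omega
      · intro h3; omega
    · intro y hy
      split_ifs with h1 h2
      · intro h3
        rw [hP.nat y h1 (κ y) le_rfl h3]
        exact Nat.zero_le _
      · intro _
        exact le_rfl
      · intro h3; omega
    · intro y hy
      split_ifs with h1 h2
      · exact hP.fin y h1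
      · intro h3; omega
      · intro _; rfl
    · intro y hy
      by_cases h1 : y + 1 ≤ Y
      · rw [if_pos h1, if_pos h1, if_pos (by omega : y ≤ Y), if_pos (by omega : y ≤ Y)]
        exact hP.inc y (by omega)
      · rw [if_neg h1, if_neg h1]
        by_cases h2 : y ≤ Y
        · have h3 : y = Y := by omega
          subst h3
          rw [if_pos h2, if_pos h2]
          intro h4 h5
          rw [if_pos h4] at hk
          omega
        · rw [if_neg h2, if_neg h2]
          intro h4 _
          by_cases h5 : k < N
          · rw [if_pos h5] at h4 ⊢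
            rw [if_pos h5]
            unfold na at h4 ⊢
            omega
          · rw [if_neg h5] at h4
            omega
    · rw [if_neg (by omega : ¬ (R - 1 ≤ Y))]
      by_cases h2 : R - 2 ≤ Y
      · rw [if_pos h2]
        have h3 : R - 2 = Y := by omega
        have h4 : ¬ (0 < x Y) := by
          intro h5
          by_cases h6 : κ Y < N
          · have h7 := hP.nat Y le_rfl (κ Y) le_rfl h6
            have h8 := hP.lt Y le_rfl h6
            unfold na at h7
            omega
          · have h7 := hP.le Y le_rfl
            have h8 := hP.fin Y le_rfl (by omega)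
            omega
        rw [if_neg h4] at hk
        rw [h3]
        exact hk
      · rw [if_neg h2]
    · rw [if_neg (by omega : ¬ (R - 1 ≤ Y)), if_neg (by omega : ¬ (R - 1 ≤ Y))]
      intro h
      rw [if_pos h]
      unfold na
      omega
  · intro y hy
    exact ⟨if_pos hy, if_pos hy⟩
  · intro z hz
    unfold uz
    apply Finset.sum_congr rfl
    intro c _
    apply uc_va_congr
    intro y hy
    exact ⟨if_pos (by omega), if_pos (by omega)⟩

end Pool.Agent.Helper12.UW
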